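import Pool.Agent.W285.UB.Stm

/-! UB-FIB: the fibres of the evaluation at a point. -/

set_option autoImplicit false

namespace Pool.Agent.W15.UB

open NumberField Height Module
open Pool.Agent.W285.UB Pool.Agent.Helper259.AbsHt

theorem fib : S_BALL → S_ROOT → S_MODM → S_FIB := by
  intro hBall hRoot hMod K _ _ ι d
  obtain ⟨-, c, hc1, hc⟩ := hBall K
  obtain ⟨C0, hC1, hC0⟩ := hRoot d
  refine ⟨(2 * C0 * c) ^ (finrank ℚ K * d), by positivity, ?_⟩
  intro H hH v hv t
  have hht : 0 < ht v := Real.exp_pos _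
  set X : ℝ := 2 * C0 * c * H / ht v with hX
  have hX0 : 0 ≤ X := by positivity
  set m : ℕ := ⌊X⌋₊ + 1 with hm
  have hm1 : 1 ≤ m := by omega
  have hXm : X < m := by
    rw [hm]; push_cast; exact Nat.lt_floor_add_one X
  have hmX : (m : ℝ) ≤ X + 1 := by
    rw [hm]; push_cast
    have := Nat.floor_le hX0
    linarith
  have key := hMod K ι d H m hm1 v hv ?_ t
  · have h1 : ((({f | (∀ i, f i ∈ ball K H) ∧ fval (io ι) f v = t} :
        Set (Fin (d + 1) → 𝓞 K)).ncard : ℕ) : ℝ) ≤ (m : ℝ) ^ (finrank ℚ K * d) := by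
      exact_mod_cast key
    refine h1.trans ?_
    rw [← mul_pow]
    refine pow_le_pow_left₀ (by positivity) (hmX.trans ?_) _
    have h2 : 1 ≤ 2 * C0 * c := by nlinarith
    have h3 : X = 2 * C0 * c * (H / ht v) := by rw [hX]; ring
    rw [h3]
    nlinarith
  · intro f hf hf0
    by_contra hne
    set r : ℕ := 2 * H / m with hr
    have hmr : m * r ≤ 2 * H := Nat.mul_div_le _ _
    have hball : ∀ i, f i ∈ ball K r := by
      intro i j
      have h1 := hf i j
      have h2 : |(RingOfIntegers.basis K).repr (f i) j| ≤ (2 * (H : ℤ)) / (m : ℤ) := by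
        rw [Int.le_ediv_iff_mul_le (by exact_mod_cast hm1)]
        rw [mul_comm]
        exact h1
      have h3 : ((r : ℕ) : ℤ) = (2 * (H : ℤ)) / (m : ℤ) := by
        rw [hr]; push_cast; rfl
      rw [h3]
      exact h2
    have hr1 : 1 ≤ r := by
      by_contra hlt
      have hr0 : r = 0 := Nat.lt_one_iff.1 (not_le.1 hlt)
      apply hne
      funext i
      apply (RingOfIntegers.basis K).repr.injective
      ext j
      have := hball i j
      rw [hr0] at this
      simpa using this
    have hr1' : (1 : ℝ) ≤ r := by exact_mod_cast hr1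
    have hB : (1 : ℝ) ≤ c * r := by nlinarith
    have hroot := hC0 K ι (c * r) hB f hne (fun i => hc r (f i) (hball i)) v hv hf0
    have hmr' : (m : ℝ) * r ≤ 2 * H := by exact_mod_cast hmr
    have h5 : X * ht v < m * ht v := mul_lt_mul_of_pos_right hXm hht
    have h6 : X * ht v = 2 * C0 * c * H := by
      rw [hX]; field_simp
    have h7 : (m : ℝ) * ht v ≤ m * (C0 * (c * r)) :=
      mul_le_mul_of_nonneg_left hroot (by positivity)
    have h8 : (m : ℝ) * (C0 * (c * r)) = (C0 * c) * (m * r) := by ring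
    have h9 : (C0 * c) * ((m : ℝ) * r) ≤ (C0 * c) * (2 * H) :=
      mul_le_mul_of_nonneg_left hmr' (by positivity)
    rw [h6] at h5
    rw [h8] at h7
    linarith

end Pool.Agent.W15.UB
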